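import Pool.Agent.LibHag.Main

/-!
# The case of five terminals of Hager's question
-/

set_option autoImplicit false

namespace Pool.Agent.Results.MP_96ef52_co.FiveTerminals

/-- For every `k ≥ 1` the least connectivity that forces `k` internally disjoint paths through any
five given vertices is `4 k`. -/
theorem result : ∀ k : ℕ, 1 ≤ k →
    (∀ (V : Type) (G : SimpleGraph V), Finite V →
      (4 * k + 1 ≤ Nat.card V ∧
        ∀ X : Finset V, X.card < 4 * k → (G.induce ((↑X : Set V)ᶜ)).Connected) →
      (max 5 (k + 1) ≤ Nat.card V ∧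
        ∀ A : Finset V, A.card = 5 →
          ∃ (a b : Fin k → V) (P : (i : Fin k) → G.Walk (a i) (b i)),
            (∀ i, (P i).IsPath ∧ ∀ x ∈ A, x ∈ (P i).support) ∧
            (∀ i j, i ≠ j →
              (∀ x, x ∈ (P i).support → x ∈ (P j).support → x ∈ A) ∧
              (∀ e, e ∈ (P i).edges → e ∉ (P j).edges)))) ∧
    (∃ (V : Type) (G : SimpleGraph V), Finite V ∧
      (4 * k ≤ Nat.card V ∧
        ∀ X : Finset V, X.card < 4 * k - 1 → (G.induce ((↑X : Set V)ᶜ)).Connected) ∧
      ¬ (max 5 (k + 1) ≤ Nat.card V ∧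
        ∀ A : Finset V, A.card = 5 →
          ∃ (a b : Fin k → V) (P : (i : Fin k) → G.Walk (a i) (b i)),
            (∀ i, (P i).IsPath ∧ ∀ x ∈ A, x ∈ (P i).support) ∧
            (∀ i j, i ≠ j →
              (∀ x, x ∈ (P i).support → x ∈ (P j).support → x ∈ A) ∧
              (∀ e, e ∈ (P i).edges → e ∉ (P j).edges)))) := by
  intro k hk
  constructor
  · intro V G hV h
    exact Pool.Agent.Hag.upper_of_game 5 k (4 * k) (by omega) hk (by omega) (by omega)
      (fun U _ _ G A hA h5 => Pool.Agent.Hag.five hA (by omega) h5) V G hV h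
  · have := Pool.Agent.Hag.lower 5 k (by omega) hk
    have e : k * (5 - 1) = 4 * k := by omega
    rw [e] at this
    exact this

end Pool.Agent.Results.MP_96ef52_co.FiveTerminals
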